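import Pool.Agent.BEN.StmtsB

/-!
# Squad BEN (MP_be01ff_an), row JLF: lifting functions with values in `L²` to curves of jets.
-/

namespace Pool.Agent.BEN.H14

open Set Filter Topology MeasureTheory
open scoped InnerProductSpace ENNReal
open Pool.Agent.BE01 Pool.Agent.BEL Pool.Agent.BEF Pool.Agent.BEH Pool.Agent.BEN

noncomputable section

/-- A function `z` whose image under an injective continuous linear map has the derivative `a (v r)`,
`v` continuous, has the derivative `v`. -/
theorem der_of_inj {Z H : Type} [NormedAddCommGroup Z] [NormedSpace ℝ Z] [CompleteSpace Z]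
    [NormedAddCommGroup H] [NormedSpace ℝ H] (a : Z →L[ℝ] H) (ha : Function.Injective a)
    (z v : ℝ → Z) (t0 : ℝ) (hv : ContinuousOn v (Ioi t0))
    (hd : ∀ r > t0, HasDerivAt (fun r => a (z r)) (a (v r)) r) :
    ∀ t > t0, HasDerivAt z (v t) t := by
  intro t ht
  have hsub : ∀ r > t0, uIcc t r ⊆ Ioi t0 := by
    intro r hr u hu
    have h1 : min t r ≤ u := hu.1
    exact lt_of_lt_of_le (lt_min ht hr) h1
  set Φ : ℝ → Z := fun r => z t + ∫ u in t..r, v u with hΦ
  have hΦd : ∀ r > t0, HasDerivAt Φ (v r) r := by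
    intro r hr
    have h1 : IntervalIntegrable v volume t r :=
      (hv.mono (hsub r hr)).intervalIntegrable
    have h2 : StronglyMeasurableAtFilter v (𝓝 r) volume :=
      hv.stronglyMeasurableAtFilter isOpen_Ioi r hr
    have h3 : ContinuousAt v r := hv.continuousAt (isOpen_Ioi.mem_nhds hr)
    have h4 := intervalIntegral.integral_hasDerivAt_right h1 h2 h3
    exact h4.const_add (z t)
  have hD : ∀ r > t0, HasDerivAt (fun r => a (z r) - a (Φ r)) 0 r := by
    intro r hr
    have h1 := a.hasFDerivAt.comp_hasDerivAt r (hΦd r hr)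
    have h2 : HasDerivAt (fun r => a (z r) - a (Φ r)) (a (v r) - a (v r)) r := (hd r hr).sub h1
    rw [sub_self] at h2
    exact h2
  have hconst : ∀ r > t0, a (z r) - a (Φ r) = a (z t) - a (Φ t) := by
    intro r hr
    have h1 : ∀ u ∈ Ioi t0, HasDerivWithinAt (fun r => a (z r) - a (Φ r)) 0 (Ioi t0) u :=
      fun u hu => (hD u hu).hasDerivWithinAt
    have h2 := (convex_Ioi t0).norm_image_sub_le_of_norm_hasDerivWithin_le (C := 0) h1
      (fun u _ => by simp) ht hr
    rw [zero_mul] at h2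
    exact sub_eq_zero.1 (norm_le_zero_iff.1 h2)
  have hΦt : Φ t = z t := by simp [hΦ]
  have heq : ∀ r > t0, z r = Φ r := by
    intro r hr
    have h1 := hconst r hr
    rw [hΦt, sub_self] at h1
    exact ha (sub_eq_zero.1 h1)
  have hev : z =ᶠ[𝓝 t] Φ := by
    filter_upwards [isOpen_Ioi.mem_nhds ht] with r hr using heq r hr
  exact (hΦd t ht).congr_of_eventuallyEq hev

theorem jlf (hQ : QefStmt) (hI : InqStmt) : JlfStmt := by
  intro T _ μ _ s t0 y hs h1 h2 h3
  obtain ⟨-, -, hq3, -, -, -⟩ := hQ s hs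
  have hmem : ∀ j ≤ s, ∀ t > t0, MemLp (y j t) (qe s j) μ := fun j hj t ht =>
    ⟨Lp.aestronglyMeasurable _, h1 j hj t ht⟩
  classical
  set x : ℝ → Jt s μ := fun t j =>
    if ht : t > t0 then (hmem (j : ℕ) (Nat.lt_succ_iff.1 j.2) t ht).toLp (y j t) else 0 with hx
  have hxt : ∀ t (ht : t > t0) (j : Fin (s + 1)), x t j =
      (hmem (j : ℕ) (Nat.lt_succ_iff.1 j.2) t ht).toLp (y j t) := by
    intro t ht j
    simp only [hx]
    rw [dif_pos ht]
  have hxy : ∀ t (_ : t > t0) (j : Fin (s + 1)), (x t j : T → ℝ) =ᵐ[μ] y j t := by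
    intro t ht j
    rw [hxt t ht j]
    exact MemLp.coeFn_toLp _
  have hcont : ∀ j : Fin (s + 1), ContinuousOn (fun t => x t j) (Ioi t0) := by
    intro j t ht
    apply ContinuousAt.continuousWithinAt
    rw [ContinuousAt, tendsto_iff_edist_tendsto_0]
    refine (h2 (j : ℕ) (Nat.lt_succ_iff.1 j.2) t ht).congr' ?_
    filter_upwards [isOpen_Ioi.mem_nhds ht] with r hr
    rw [hxt r hr j, hxt t ht j, Lp.edist_toLp_toLp]
    exact eLpNorm_congr_ae (Lp.coeFn_sub _ _)
  refine ⟨x, ⟨continuousOn_pi.2 hcont, ?_⟩, ?_⟩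
  · intro j ι hι
    have hjs : ((j.succ : Fin (s + 1)) : ℕ) ≤ s := Nat.lt_succ_iff.1 j.succ.2
    obtain ⟨a, ha1, ha2, -⟩ := hI T μ (qe s ((j.succ : Fin (s + 1)) : ℕ)) 2 (μ.real univ)
      (hq3 _ hjs).1 le_rfl
    refine der_of_inj a ha2 (fun r => ι (x r j.castSucc)) (fun r => x r j.succ) t0
      (hcont j.succ) ?_
    have e1 : ∀ r > t0, a (ι (x r j.castSucc)) = y j r := by
      intro r hr
      apply Lp.ext
      exact (ha1 _).trans ((hι _).trans (hxy r hr j.castSucc))
    have e2 : ∀ r > t0, a (x r j.succ) = y (j + 1) r := by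
      intro r hr
      apply Lp.ext
      exact (ha1 _).trans (hxy r hr j.succ)
    intro r hr
    have h4 := h3 (j : ℕ) j.2 r hr
    show HasDerivAt (fun r => a (ι (x r j.castSucc))) (a (x r j.succ)) r
    rw [e2 r hr]
    refine h4.congr_of_eventuallyEq ?_
    filter_upwards [isOpen_Ioi.mem_nhds hr] with u hu using e1 u hu
  · intro t ht j hj
    have hj' : j < s + 1 := Nat.lt_succ_iff.2 hj
    unfold cmp
    rw [dif_pos hj']
    exact hxy t ht ⟨j, hj'⟩

end

end Pool.Agent.BEN.H14
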